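import Mathlib
import Pool.Agent.Run7.h17.FourSq2

/-!
# Four squares, prime values of the second form: almost all constants, almost all integers

Write `n = x² + y² + z² + w²` and `p = x² + 3 y² + 5 z² + 7 w²`. For almost all pairs `(e, e')` of integers of the size of
`p` the following holds for almost all integers `n`: the number of the representations of `n` for which `p + e` and `p + e'`
are both prime is the one predicted by the sieve model (`k = 2`, `F 0 = F 1 = X`, weights `θ`). In general `F i` (`i < k`)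
are nonconstant integer polynomials, all the numbers `F i (p) + e i` shall be prime, and the weights `θ(x, y, z, w)` of the
representations are arbitrary bounded numbers (for instance one may allow only representations from an arbitrary set).

Used: the starting files `Pool.Agent.H373R2.T7` (sieve model, energies of polynomial values), `Pool.Agent.TH823.Fam`,
`Pool.Agent.H560R3.GB` (von Mangoldt's function along families of small energy) and `Pool.Agent.H442R2.KF` (second moment of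
the divisor function). From Mathlib: `ArithmeticFunction.vonMangoldt` is von Mangoldt's function `Λ`; `Finset.Icc a b` are the
integers from `a` to `b`; `Int.toNat n` is `n` for `n ≥ 0` and `0` for `n < 0`.
-/

set_option autoImplicit false

namespace Pool.Agent.Results.MP_0ad054_nt.AlmostAllConstants

open Finset Polynomial

/-- Von Mangoldt's function on the integers; it is `0` at the integers `n ≤ 0`. -/
noncomputable def vM (n : ℤ) : ℝ := ArithmeticFunction.vonMangoldt n.toNat

/-- The sieve model: the positive integers without prime factors up to `z` have the weight `∏_{p ≤ z} (1 - 1 / p)⁻¹`,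
the other integers the weight `0`. -/
noncomputable def model (z : ℕ) (n : ℤ) : ℝ :=
  if 1 ≤ n ∧ ∀ p ∈ (Icc 1 z).filter Nat.Prime, ¬ p ∣ n.toNat then
    (∏ p ∈ (Icc 1 z).filter Nat.Prime, (1 - 1 / (p : ℝ)))⁻¹ else 0

/-- The representations `n = x² + y² + z² + w²` by integers (of absolute value at most `n`). -/
noncomputable def representations (n : ℕ) : Finset (ℤ × ℤ × ℤ × ℤ) :=
  (Icc (-(n : ℤ)) n ×ˢ Icc (-(n : ℤ)) n ×ˢ Icc (-(n : ℤ)) n ×ˢ Icc (-(n : ℤ)) n).filter
    (fun v => v.1 ^ 2 + v.2.1 ^ 2 + v.2.2.1 ^ 2 + v.2.2.2 ^ 2 = n)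

/-- The number `p(x, y, z, w) = x² + 3 y² + 5 z² + 7 w²`. -/
def pValue (v : ℤ × ℤ × ℤ × ℤ) : ℤ := v.1 ^ 2 + 3 * v.2.1 ^ 2 + 5 * v.2.2.1 ^ 2 + 7 * v.2.2.2 ^ 2

/-- The sum of `θ(v) ∏_i Λ(F i (p) + c i)`, `p = p(v)`, over the representations `v` of `n`. -/
noncomputable def primeSum {k : ℕ} (θ : ℤ × ℤ × ℤ × ℤ → ℝ) (F : Fin k → ℤ[X]) (c : Fin k → ℤ) (n : ℕ) : ℝ :=
  ∑ v ∈ representations n, θ v * ∏ i, vM ((F i).eval (pValue v) + c i)

/-- The sum of `θ(v) ∏_i model(F i (p) + c i)`, `p = p(v)`, over the representations `v` of `n`. -/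
noncomputable def modelSum {k : ℕ} (z : ℕ) (θ : ℤ × ℤ × ℤ × ℤ → ℝ) (F : Fin k → ℤ[X]) (c : Fin k → ℤ) (n : ℕ) : ℝ :=
  ∑ v ∈ representations n, θ v * ∏ i, model z ((F i).eval (pValue v) + c i)

/-- For all but at most `y` of the integers `n` from `1` to `x / 7` the two sums differ by at most `y`. -/
def GoodConstants {k : ℕ} (x z : ℕ) (θ : ℤ × ℤ × ℤ × ℤ → ℝ) (F : Fin k → ℤ[X]) (y : ℝ) (c : Fin k → ℤ) : Prop :=
  (((Icc 1 (x / 7)).filter (fun n : ℕ => y < |primeSum θ F c n - modelSum z θ F c n|)).card : ℝ) ≤ y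

lemma lam_eq (n : ℤ) : Pool.Agent.H373R2.T7.lamI n = vM n := by
  unfold Pool.Agent.H373R2.T7.lamI vM
  split_ifs with h
  · rfl
  · have : n.toNat = 0 := Int.toNat_of_nonpos (by omega)
    rw [this]
    simp

lemma lamz_eq (z : ℕ) (n : ℤ) : Pool.Agent.H373R2.T7.lamzI z n = model z n := by
  unfold Pool.Agent.H373R2.T7.lamzI Pool.Agent.H373R2.T7.lamz model
  by_cases h : 1 ≤ n
  · rw [if_pos h]
    by_cases h2 : ∀ p ∈ Pool.Agent.H373R2.T7.pz z, ¬ p ∣ n.toNat
    · rw [if_pos h2, if_pos ⟨h, h2⟩]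
      rfl
    · rw [if_neg h2, if_neg (fun h3 => h2 h3.2)]
  · rw [if_neg h, if_neg (fun h3 => h h3.1)]

open Classical in
/-- **Four squares with prime values of the second form, for almost all constants and almost all integers.** -/
theorem result (k : ℕ) (F : Fin k → ℤ[X]) (hF : ∀ i, 1 ≤ (F i).natDegree) (κ U : ℕ) :
    ∃ B₀ : ℕ, ∀ E : ℕ, ∃ x₀ : ℕ, ∀ x : ℕ, x₀ ≤ x → ∀ M : Fin k → ℕ,
    (∀ i, (x : ℝ) ^ (F i).natDegree ≤ Real.log x ^ κ * M i ∧ (M i : ℝ) ≤ Real.log x ^ κ * x ^ (F i).natDegree) →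
    ∀ a : Fin k → ℤ, (∀ i, |(a i : ℝ)| ≤ Real.log x ^ κ * M i) →
    ∀ z : ℕ, Real.log x ^ B₀ ≤ z → (z : ℝ) ≤ Real.log x ^ E →
    ∀ θ : ℤ × ℤ × ℤ × ℤ → ℝ, (∀ v, |θ v| ≤ Real.log x ^ κ) →
    (((Fintype.piFinset (fun i => Icc 1 (M i))).filter
      (fun c : Fin k → ℕ => ¬ GoodConstants x z θ F (x / Real.log x ^ U) (fun i => a i + c i))).card : ℝ) ≤
      (∏ i, (M i : ℝ)) / Real.log x ^ U := by
  obtain ⟨B0, hB0⟩ := Pool.Agent.Run7.h17.FourSq.four_main k F hF κ U
  refine ⟨B0, fun E => ?_⟩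
  obtain ⟨n1, h1⟩ := hB0 E
  refine ⟨n1, fun x hx M hM a ha z hz1 hz2 θ hθ => ?_⟩
  have key := h1 x hx M hM a (fun i => by push_cast; exact ha i) z hz1 hz2 θ hθ
  refine le_trans (Nat.cast_le.mpr (card_le_card ?_)) key
  intro c hc
  rw [mem_filter] at hc ⊢
  refine ⟨hc.1, fun hgood => hc.2 ?_⟩
  have e1 : ∀ n : ℕ, primeSum θ F (fun i => a i + c i) n - modelSum z θ F (fun i => a i + c i) n =
      ∑ v ∈ Pool.Agent.Run7.h17.FourSq.reps n, θ v *
        (∏ i, Pool.Agent.H373R2.T7.lamI (a i + (F i).eval (Pool.Agent.Run7.h17.FourSq.form v) + (c i : ℤ)) -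
          ∏ i, Pool.Agent.H373R2.T7.lamzI z (a i + (F i).eval (Pool.Agent.Run7.h17.FourSq.form v) + (c i : ℤ))) := by
    intro n
    unfold primeSum modelSum
    rw [← sum_sub_distrib]
    refine sum_congr rfl fun v _ => ?_
    rw [mul_sub]
    congr 2
    · refine prod_congr rfl fun i _ => ?_
      rw [← lam_eq]
      congr 1
      change (F i).eval (Pool.Agent.Run7.h17.FourSq.form v) + (a i + c i) = _
      ring
    · refine prod_congr rfl fun i _ => ?_
      rw [← lamz_eq]
      congr 1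
      change (F i).eval (Pool.Agent.Run7.h17.FourSq.form v) + (a i + c i) = _
      ring
  unfold GoodConstants
  simp only [e1]
  exact hgood

end Pool.Agent.Results.MP_0ad054_nt.AlmostAllConstants
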