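import Pool.Agent.Run7.h414.PM.Tool
import Pool.Agent.Results.MP_0ad054_nt.GrowingSieveModels

set_option autoImplicit false

/-!
# Four squares and pairs of perturbed primes

The question is whether every positive odd `n` is a sum of four squares `x² + y² + z² + w²` such that
`p = x² + 3y² + 5z² + 7w²` and `p - 2` are both prime.  We answer it for all large odd `n`, with an asymptotic
formula for the number of representations, for the true primes displaced at random: let `w_m` be the product of the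
primes up to `z m`, where `z m ≤ C log log m`, and let the `J_m` be independent and uniformly distributed on
`{0, …, Q m - 1}`, where `Q m w_m` lies between `m / (log m) ^ C` and `m`.  For almost every choice of the `J_m`, every
large odd `n` has about the expected number of representations for which `p + J_p w_p` and
`(p - 2) + J_{p-2} w_{p-2}` are both prime.
-/

open MeasureTheory Filter ProbabilityTheory
open scoped Topology

namespace Pool.Agent.Results.MP_0ad054_nt.PerturbedPrimes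

open Pool.Agent.Results.MP_0ad054_nt.GrowingSieveModels (R E)

/-- The random variables `J n` are independent, and `J n` is uniformly distributed on `{0, …, Q n - 1}`. -/
structure IndependentUniform {Ω : Type} [MeasurableSpace Ω] (μ : Measure Ω) (Q : ℕ → ℕ) (J : ℕ → Ω → ℕ) : Prop where
  measurable : ∀ n, Measurable (J n)
  independent : iIndepFun J μ
  uniform : ∀ n, 0 < Q n ∧ ∀ j < Q n, μ.real {ω | J n ω = j} = 1 / Q n

/-- The perturbed primes: the `m` for which `m + j_m w_m` is a prime larger than `z m`, where `w_m` is the product of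
the primes up to `z m`. -/
def perturbed (z : ℕ → ℕ) (j : ℕ → ℕ) : Set ℕ :=
  {m | (m + j m * primorial (z m)).Prime ∧ z m < m + j m * primorial (z m)}

/-- **All large odd numbers, for perturbed primes.**  Let `R(n)` be the number of `(x, y, z, w)` with
`n = x² + y² + z² + w²` for which `p = x² + 3y² + 5z² + 7w²` and `p - 2` are perturbed primes, and `E(n)` the sum of
`rho (p - 2) * rho p` over all `(x, y, z, w)` with `n = x² + y² + z² + w²`, where `rho m` is the product of `(1 - 1/q)⁻¹`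
over the primes `q ≤ z m`, divided by `log m`, if `m` has no prime factor `q ≤ z m`, and zero otherwise.  (1) For every
`ε > 0`, `E(n) ≥ n ^ (1 - ε)` for all large odd `n`.  (2) Almost surely `R(n) / E(n)` tends to `1` as `n → ∞`, `n` odd.
(3) Almost surely, for every `ε > 0`, `R(n) ≥ n ^ (1 - ε)` for all large odd `n`. -/
theorem result (z Q : ℕ → ℕ) (C : ℕ) (hz : ∀ᶠ n : ℕ in atTop, (z n : ℝ) ≤ C * Real.log (Real.log n))
    (hQ : ∀ᶠ n : ℕ in atTop, (n : ℝ) / Real.log n ^ C ≤ Q n * primorial (z n) ∧ Q n * primorial (z n) ≤ n)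
    {Ω : Type} [MeasurableSpace Ω] (μ : Measure Ω) [IsProbabilityMeasure μ] (J : ℕ → Ω → ℕ)
    (hJ : IndependentUniform μ Q J) :
    (∀ ε : ℝ, 0 < ε → ∀ᶠ n : ℕ in atTop, Odd n → (n : ℝ) ^ (1 - ε) ≤ E z n) ∧
    (∀ᵐ ω ∂μ, Tendsto (fun n : ℕ => (R (perturbed z (fun m => J m ω)) n : ℝ) / E z n) (atTop ⊓ 𝓟 {n : ℕ | Odd n}) (𝓝 1)) ∧
    (∀ᵐ ω ∂μ, ∀ ε : ℝ, 0 < ε → ∀ᶠ n : ℕ in atTop, Odd n →
      (n : ℝ) ^ (1 - ε) ≤ R (perturbed z (fun m => J m ω)) n) := by
  obtain ⟨ℱ, g1, g2, g3⟩ := Pool.Agent.Run7.h414.PM.pert z Q C hz hQ J ⟨hJ.measurable, hJ.independent, hJ.uniform⟩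
  have key : ∀ ε : ℝ, 0 < ε → (∀ᶠ n : ℕ in atTop, Odd n → (n : ℝ) ^ (1 - ε) ≤ E z n) ∧
      (∀ᵐ ω ∂μ, Tendsto (fun n : ℕ => (R (perturbed z (fun m => J m ω)) n : ℝ) / E z n) (atTop ⊓ 𝓟 {n : ℕ | Odd n}) (𝓝 1)) ∧
      (∀ᵐ ω ∂μ, ∀ᶠ n : ℕ in atTop, Odd n → (n : ℝ) ^ (1 - ε) ≤ R (perturbed z (fun m => J m ω)) n) := by
    intro ε hε
    obtain ⟨δ, hδ, h⟩ := Pool.Agent.Results.MP_0ad054_nt.GrowingSieveModels.result ε hε
    refine h μ ℱ (Pool.Agent.Run7.h414.PM.PA z J) g1 z (Pool.Agent.Run7.h414.PM.pow_of_lin z C hz δ hδ) ?_ g3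
    rintro n ⟨q, hq, hqz, hqn⟩
    exact g2 n fun hr => hr q hq hqz hqn
  refine ⟨fun ε hε => (key ε hε).1, (key 1 one_pos).2.1, ?_⟩
  have h1 : ∀ᵐ ω ∂μ, ∀ k : ℕ, ∀ᶠ n : ℕ in atTop, Odd n →
      (n : ℝ) ^ (1 - 1 / ((k : ℝ) + 1)) ≤ R (perturbed z (fun m => J m ω)) n := by
    rw [ae_all_iff]
    exact fun k => (key (1 / ((k : ℝ) + 1)) (by positivity)).2.2
  filter_upwards [h1] with ω hω ε hε
  obtain ⟨k, hk⟩ := exists_nat_one_div_lt hε
  filter_upwards [hω k, eventually_ge_atTop 1] with n h2 h3 hn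
  refine le_trans (Real.rpow_le_rpow_of_exponent_le (by exact_mod_cast h3) ?_) (h2 hn)
  linarith

end Pool.Agent.Results.MP_0ad054_nt.PerturbedPrimes
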