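import Pool.Agent.Run7.h524.MG.App3

/-!
# Four squares: the values `p = x² + 3y² + 5z² + 7w²` with `p + a`, `p + b` both prime, a Poisson law in random short lists

Project MK of this run (primes in intervals of length `N ^ (1/3) log ^ C N` with additive characters). Own library: the
simultaneous mixed Poisson law for shifted primes whose arguments are taken from an arbitrary dense set. From helper17
(`Run7.h17.FourSq`, copied): the second moment of the number of the representations with given value of the second form. New: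
the law for the values of the second form at the representations of almost all `n` as a sum of four squares.
-/

set_option autoImplicit false

open Finset Polynomial

namespace Pool.Agent.Results.MP_0ad054_nt.PoissonLawFourSquares

/-- The representations `n = x² + y² + z² + w²` by integers. -/
noncomputable def representations (n : ℕ) : Finset (ℤ × ℤ × ℤ × ℤ) :=
  (Icc (-(n : ℤ)) n ×ˢ Icc (-(n : ℤ)) n ×ˢ Icc (-(n : ℤ)) n ×ˢ Icc (-(n : ℤ)) n).filter
    (fun v => v.1 ^ 2 + v.2.1 ^ 2 + v.2.2.1 ^ 2 + v.2.2.2 ^ 2 = n)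

/-- The set of the numbers `p(x, y, z, w) = x² + 3 y² + 5 z² + 7 w²`, `(x, y, z, w) ∈ R`. -/
noncomputable def values (R : Finset (ℤ × ℤ × ℤ × ℤ)) : Finset ℕ :=
  R.image fun v => (v.1 ^ 2 + 3 * v.2.1 ^ 2 + 5 * v.2.2.1 ^ 2 + 7 * v.2.2.2 ^ 2).toNat

open Classical in
/-- The number of the members `p` of the list `p_1, ..., p_m` for which `p + a_0` and `p + a_1` are primes. -/
noncomputable def hits {S : Finset ℕ} {m : ℕ} (p : Fin m → {s // s ∈ S}) (a : Fin 2 → ℕ) : ℕ :=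
  (univ.filter fun l => ((p l : ℕ) + a 0).Prime ∧ ((p l : ℕ) + a 1).Prime).card

open Classical in
/-- The proportion of the `p ∈ S` for which neither `p + a_0` nor `p + a_1` has a prime factor `≤ z`, divided by the square of
the product of the `1 - 1 / t` over the primes `t ≤ z`. -/
noncomputable def sieved (S : Finset ℕ) (z : ℕ) (a : Fin 2 → ℕ) : ℝ :=
  (S.filter fun p => ∀ t ≤ z, t.Prime → ¬ t ∣ p + a 0 ∧ ¬ t ∣ p + a 1).card / S.card /
    (∏ t ∈ (Icc 1 z).filter Nat.Prime, (1 - 1 / (t : ℝ))) ^ 2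

/-- The Poisson probabilities. -/
noncomputable def poisson (lam : ℝ) (j : ℕ) : ℝ := Real.exp (-lam) * lam ^ j / j.factorial

/-- The Poisson law for the lists of `m` members of `S`, the pairs of constants from `J`: for all lists `p_1, ..., p_m` of
members of `S`, with at most `η |S| ^ m` exceptions, for all `j ≥ 0` simultaneously, the number of the `a ∈ J` for which
exactly `j` of the `p_1, ..., p_m` make `p + a_0` and `p + a_1` primes differs by at most `ε |J|` from the sum over `a ∈ J`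
of the Poisson probabilities `exp (- λ_a) λ_a ^ j / j!`, `λ_a = m (sieved S z a) / (log a_0 log a_1)`. -/
def Law (S : Finset ℕ) (J : Finset (Fin 2 → ℕ)) (z m : ℕ) (ε η : ℝ) : Prop :=
  open Classical in
  (((univ : Finset (Fin m → {s // s ∈ S})).filter fun p => ¬ ∀ j : ℕ,
    |((J.filter fun a => hits p a = j).card : ℝ) -
        ∑ a ∈ J, poisson (m * (sieved S z a / (Real.log (a 0) * Real.log (a 1)))) j| ≤
      ε * J.card).card : ℝ) ≤ η * (S.card : ℝ) ^ m

open Classical in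
/-- Let `T, U ≥ 0`, `B ≥ 1` and `Λ, ε > 0`. There are `C`, `B₀`, `M₀` and `δ > 0` such that for every `E` the following holds
for all large `N`, with `L = log N`, and all `X` with `N ^ (1/3) L ^ C ≤ X ≤ N / L ^ C`: for all but at most `X / L ^ U` of the
integers `n ≤ X`, all sets `R` of at least `X / L ^ T` representations `n = x² + y² + z² + w²`, all `z` between `L ^ B₀` and
`L ^ E`, all sets `J` of at least `N ^ 2 / B` pairs of integers in `[1, N]` and all `m` with `M₀ ≤ m ≤ Λ L ^ 2`, the Poisson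
law holds up to `exp (- δ L ^ 2) |S| ^ m` exceptions for the set `S` of the values `x² + 3y² + 5z² + 7w²` at the
`(x, y, z, w) ∈ R`. -/
theorem result (T U B : ℕ) (hB : 1 ≤ B) (Λ ε : ℝ) (hΛ : 0 < Λ) (hε : 0 < ε) :
    ∃ (C B₀ M₀ : ℕ) (δ : ℝ), 0 < δ ∧ ∀ E : ℕ, ∃ N₀ : ℕ, ∀ N : ℕ, N₀ ≤ N → ∀ X : ℕ,
    (N : ℝ) ^ (1 / 3 : ℝ) * Real.log N ^ C ≤ X → X * Real.log N ^ C ≤ N →
    ∃ D : Finset ℕ, D ⊆ Icc 1 X ∧ D.card * Real.log N ^ U ≤ X ∧ ∀ n ∈ Icc 1 X, n ∉ D →
    ∀ R : Finset (ℤ × ℤ × ℤ × ℤ), R ⊆ representations n → (X : ℝ) ≤ Real.log N ^ T * R.card → ∀ z : ℕ,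
    Real.log N ^ B₀ ≤ z → (z : ℝ) ≤ Real.log N ^ E →
    ∀ J : Finset (Fin 2 → ℕ), J ⊆ Fintype.piFinset (fun _ : Fin 2 => Icc 1 N) → N ^ 2 ≤ B * J.card →
    ∀ m : ℕ, M₀ ≤ m → (m : ℝ) ≤ Λ * Real.log N ^ 2 →
    Law (values R) J z m ε (Real.exp (-(δ * Real.log N ^ 2))) := by
  obtain ⟨C, B₀, M₀, δ, hδ, h⟩ := Pool.Agent.Run7.h524.MG.app_four T U B hB Λ hΛ ε hε
  refine ⟨C, B₀, M₀, δ, hδ, fun E => ?_⟩
  obtain ⟨N₀, h⟩ := h E
  refine ⟨N₀, fun N hN X hX1 hX2 => ?_⟩
  obtain ⟨D, hD1, hD2, h⟩ := h N hN X hX1 hX2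
  refine ⟨D, hD1, hD2, fun n hn hnD R hR hRX z hz1 hz2 J hJ hJB m hm1 hm2 => ?_⟩
  have h1 := h n hn hnD R hR hRX z hz1 hz2 J hJ hJB m hm1 hm2
  have hval : Pool.Agent.Run7.h524.MG.fvals R = values R := rfl
  rw [hval] at h1
  unfold Law
  obtain ⟨S, hS⟩ : ∃ S, S = values R := ⟨_, rfl⟩
  rw [← hS] at h1 ⊢
  have hs : ∀ a : Fin 2 → ℕ, sieved S z a = Pool.Agent.Run7.h524.MG.sv (fun (_ : Fin 2) (s : ℕ) => s) S z a := by
    intro a
    unfold sieved Pool.Agent.Run7.h524.MG.sv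
    have e : ∀ q : ℕ, (∀ t ≤ z, t.Prime → ¬ t ∣ q + a 0 ∧ ¬ t ∣ q + a 1) ↔
        ∀ i : Fin 2, ∀ t ≤ z, t.Prime → ¬ t ∣ q + a i := by
      intro q
      rw [Fin.forall_fin_two]
      constructor
      · intro h
        exact ⟨fun t ht1 ht2 => (h t ht1 ht2).1, fun t ht1 ht2 => (h t ht1 ht2).2⟩
      · intro h t ht1 ht2
        exact ⟨h.1 t ht1 ht2, h.2 t ht1 ht2⟩
    simp only [e]
  have hp : ∀ a : Fin 2 → ℕ, Real.log (a 0) * Real.log (a 1) = ∏ i, Real.log (a i) := by
    intro a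
    rw [Fin.prod_univ_two]
  refine le_trans (Nat.cast_le.2 (card_le_card fun ω hω => ?_)) h1
  rw [mem_filter] at hω ⊢
  refine ⟨mem_univ _, fun h3 => hω.2 fun j => ?_⟩
  have h4 := h3 j
  unfold Pool.Agent.Run7.h524.MG.pw at h4
  unfold poisson hits
  simp only [hs, hp]
  simp only [Fin.forall_fin_two] at h4
  exact h4

end Pool.Agent.Results.MP_0ad054_nt.PoissonLawFourSquares
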