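import Pool.Agent.Run7.h189.RC.Twin

/-!
# Two random constants for every w: all large odd n
-/

set_option autoImplicit false

namespace Pool.Agent.Results.MP_0ad054_nt.RandomConstants

open MeasureTheory ProbabilityTheory Filter

/-- the length of the intervals of the constants, `⌈(w + 1) ^ 2 / log (w + 2) ^ A⌉` -/
noncomputable def size (A w : ℕ) : ℕ := ⌈((w : ℝ) + 1) ^ 2 / Real.log (w + 2) ^ A⌉₊

/-- the pairs of constants `(a 0, b 0), (a 1, b 1), …`: independent, `(a w, b w)` uniform on the pairs of integers from `1` to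
`size A w` -/
structure Constants (A : ℕ) {Ω : Type} [MeasurableSpace Ω] (μ : Measure Ω) (a b : ℕ → Ω → ℕ) : Prop where
  measurable : ∀ w, Measurable (fun ω => (a w ω, b w ω))
  indep : iIndepFun (fun w ω => (a w ω, b w ω)) μ
  law : ∀ w k l : ℕ, 1 ≤ k → k ≤ size A w → 1 ≤ l → l ≤ size A w → μ.real {ω | a w ω = k ∧ b w ω = l} = 1 / (size A w : ℝ) ^ 2

/-- the `w` such that `n = x ^ 2 + y ^ 2 + z ^ 2 + w ^ 2` for some `x, y, z` such that, `p = x ^ 2 + 3 y ^ 2 + 5 z ^ 2 + 7 w ^ 2`,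
both `p + c w` and `p - 2 + d w` are prime numbers -/
def good (c d : ℕ → ℕ) (n : ℕ) : Set ℕ :=
  {w | ∃ x y z p q : ℕ, n = x ^ 2 + y ^ 2 + z ^ 2 + w ^ 2 ∧ p = x ^ 2 + 3 * y ^ 2 + 5 * z ^ 2 + 7 * w ^ 2 ∧
    (p + c w).Prime ∧ q.Prime ∧ q + 2 = p + d w}

lemma random (A : ℕ) (Ω : Type) [MeasurableSpace Ω] (μ : Measure Ω) [IsProbabilityMeasure μ]
    (a b : ℕ → Ω → ℕ) (h : Constants A μ a b) :
    ∀ᵐ ω ∂μ, ∀ᶠ n : ℕ in atTop, Odd n →
      Real.sqrt n / (1024 * Real.log n ^ 2) < ((good (fun w => a w ω) (fun w => b w ω) n).ncard : ℝ) := by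
  have h1 := Pool.Agent.Run7.h189.RC.twin (μ := μ) (a := fun w ω => (a w ω, b w ω)) A h.measurable h.indep (by
    intro w k k1 k2 k3 k4
    have h2 := h.law w k.1 k.2 k1 k2 k3 k4
    have e : {ω | (a w ω, b w ω) = k} = {ω | a w ω = k.1 ∧ b w ω = k.2} := by
      ext ω
      exact Prod.ext_iff
    rw [e]
    exact h2)
  filter_upwards [h1] with ω hω
  filter_upwards [hω] with n hn hodd
  obtain ⟨W, hW1, hW2⟩ := hn hodd
  refine hW1.trans_le ?_
  have hfin : (good (fun w => a w ω) (fun w => b w ω) n).Finite := by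
    apply (Finset.range (n + 1)).finite_toSet.subset
    rintro w ⟨x, y, z, p, q, e, -⟩
    rw [Finset.mem_coe, Finset.mem_range]
    have : w ≤ w ^ 2 := Nat.le_self_pow two_ne_zero w
    omega
  rw [Nat.cast_le, ← Set.ncard_coe_finset]
  apply Set.ncard_le_ncard _ hfin
  intro w hw
  obtain ⟨-, x, y, z, e, hp, q, hq, hq2⟩ := hW2 w hw
  exact ⟨x, y, z, _, q, e, rfl, hp, hq, hq2⟩

/-- For every `A`: for independent pairs of constants `(a w, b w)`, uniform on the pairs of integers from `1` to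
`⌈(w + 1) ^ 2 / log (w + 2) ^ A⌉`, almost surely every large odd `n` has more than `√n / (1024 log ^ 2 n)` values `w` with natural
numbers `x, y, z` such that `n = x ^ 2 + y ^ 2 + z ^ 2 + w ^ 2` and, `p = x ^ 2 + 3 y ^ 2 + 5 z ^ 2 + 7 w ^ 2`, both `p + a w` and
`p - 2 + b w` are prime numbers. So there are such fixed sequences. -/
theorem result (A : ℕ) :
    (∀ (Ω : Type) [MeasurableSpace Ω] (μ : Measure Ω) [IsProbabilityMeasure μ] (a b : ℕ → Ω → ℕ), Constants A μ a b →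
      ∀ᵐ ω ∂μ, ∀ᶠ n : ℕ in atTop, Odd n →
        Real.sqrt n / (1024 * Real.log n ^ 2) < ((good (fun w => a w ω) (fun w => b w ω) n).ncard : ℝ)) ∧
    ∃ c d : ℕ → ℕ, (∀ w, 1 ≤ c w ∧ c w ≤ size A w ∧ 1 ≤ d w ∧ d w ≤ size A w) ∧
      ∀ᶠ n : ℕ in atTop, Odd n → Real.sqrt n / (1024 * Real.log n ^ 2) < ((good c d n).ncard : ℝ) := by
  refine ⟨fun Ω _ μ _ a b h => random A Ω μ a b h, ?_⟩
  obtain ⟨Ω, _, μ, _, a, hm, hi, hl⟩ := Pool.Agent.Run7.h189.RC.exists_model2 (size A) (Pool.Agent.Run7.h189.RC.size_pos A)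
  have h1 := random A Ω μ (fun w ω => (a w ω).1) (fun w ω => (a w ω).2) ⟨hm, hi, by
    intro w k l h1 h2 h3 h4
    have h5 := hl w (k, l) h1 h2 h3 h4
    have e : {ω | a w ω = (k, l)} = {ω | (a w ω).1 = k ∧ (a w ω).2 = l} := by
      ext ω
      exact Prod.ext_iff
    rw [← e]
    exact h5⟩
  have h2 := Pool.Agent.Run7.h189.RC.range_ae2 (μ := μ) (a := a) (size A) (Pool.Agent.Run7.h189.RC.size_pos A) hm hl
  obtain ⟨ω, g1, g2⟩ := (h1.and h2).exists
  exact ⟨fun w => (a w ω).1, fun w => (a w ω).2, g2, g1⟩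

end Pool.Agent.Results.MP_0ad054_nt.RandomConstants
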